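import Pool.Agent.Work.MP_a5099b_nt.A.Defs

/-!
# Module D.Defs ()

Definitions of block D (regularity at the supersingular points), no `sorry`.
-/

set_option autoImplicit false

namespace Pool.Agent.SS

open UpperHalfPlane Polynomial
open Pool.Agent.Work.CM (IsLat g2 g3 tauLat)
open scoped Pointwise MatrixGroups

noncomputable section

/-- `j(T)` over `F_q`. -/
def Jb (q : ℕ) : LaurentSeries (ZMod q) := lmap (Int.castRingHom (ZMod q)) Jq

/-- `E₄(T)` over `F_q`. -/
def E4b (q : ℕ) : PowerSeries (ZMod q) := PowerSeries.map (Int.castRingHom (ZMod q)) E4q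

/-- `E₆(T)` over `F_q`. -/
def E6b (q : ℕ) : PowerSeries (ZMod q) := PowerSeries.map (Int.castRingHom (ZMod q)) E6q

/-- `Δ(T)` over `F_q`. -/
def Db (q : ℕ) : PowerSeries (ZMod q) := PowerSeries.map (Int.castRingHom (ZMod q)) Dq

/-- `P(X) = G(X, X^q)` over `F_q`. -/
def PG (q : ℕ) : (ZMod q)[X] := GGAt q (X : (ZMod q)[X]) (X ^ q)

/-- `W(X) = X - X^(q^2)` over `F_q`. -/
def WG (q : ℕ) : (ZMod q)[X] := X - X ^ (q ^ 2)

/-- `V = X^(q-1) W^2 + P' W - P` over `F_q`. -/
def VG (q : ℕ) : (ZMod q)[X] :=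
  X ^ (q - 1) * WG q ^ 2 + derivative (PG q) * WG q - PG q

end

end Pool.Agent.SS
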