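import Pool.Agent.Work.MP_a5099b_nt.D.Defs
import Pool.Agent.Work.MP_a5099b_nt.C.QHas

/-!
# Module D.HasseQ

Interface with block C: the Hasse invariant of the Tate curve is `1`:
`A_q(E₄, E₆) = E_(q-1) = 1` in `F_q[[T]]` (proved in `C.QHas`).
-/

set_option autoImplicit false

namespace Pool.Agent.SS

open UpperHalfPlane Polynomial
open Pool.Agent.Work.CM (IsLat g2 g3 tauLat)
open scoped Pointwise MatrixGroups

theorem hasse_q {q : ℕ} (hq : q.Prime) (h5 : 5 ≤ q) :
    Hasse q (PowerSeries.C (-(48 : ZMod q)⁻¹) * E4b q) (PowerSeries.C ((864 : ZMod q)⁻¹) * E6b q) =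
      (1 : PowerSeries (ZMod q)) :=
  hasse_q' hq h5

end Pool.Agent.SS
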