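import Pool.Agent.Work.MP_a5099b_nt.D.Defs
import Pool.Agent.Work.MP_a5099b_nt.A.DqF

/-!
# Module D.Tr (S-M)

`J̄ = T^(-1) + ...` is transcendental over `F_q`: for `P ≠ 0` of degree `n` with leading coefficient `c` the
coefficient of `T^(-n)` in `P(J̄)` is `c` (the coefficient of `T^(-n)` in `J̄^n` is `1`, in `J̄^i`, `i < n`, it is `0`:
`Jq_coeff_neg_one`, `Jq_coeff_lt`). `theta J̄ ≠ 0`: its coefficient at `T^(-1)` is `-1`.
-/

set_option autoImplicit false

namespace Pool.Agent.SS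

open UpperHalfPlane Polynomial
open Pool.Agent.Work.CM (IsLat g2 g3 tauLat)
open scoped Pointwise MatrixGroups

private theorem Jb_coeff (q : ℕ) (m : ℤ) : (Jb q).coeff m = ((Jq.coeff m : ℤ) : ZMod q) := by
  show (Jq.map (Int.castRingHom (ZMod q))).coeff m = _
  rw [HahnSeries.map_coeff]
  rfl

private theorem Jb_m1 (q : ℕ) : (Jb q).coeff (-1) = 1 := by
  rw [Jb_coeff, Jq_coeff_neg_one, Int.cast_one]

private theorem Jb_ne {q : ℕ} [Fact q.Prime] : Jb q ≠ 0 := by
  intro h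
  have h1 := Jb_m1 q
  rw [h] at h1
  exact zero_ne_one h1

private theorem Jb_order {q : ℕ} [Fact q.Prime] : (Jb q).order = -1 := by
  apply le_antisymm
  · apply HahnSeries.order_le_of_coeff_ne_zero
    rw [Jb_m1]
    exact one_ne_zero
  · by_contra h
    push Not at h
    have h1 : (Jb q).coeff (Jb q).order ≠ 0 := HahnSeries.coeff_order_eq_zero.not.2 Jb_ne
    apply h1
    rw [Jb_coeff, Jq_coeff_lt h, Int.cast_zero]

private theorem Jb_pow_order {q : ℕ} [Fact q.Prime] (i : ℕ) : (Jb q ^ i).order = -(i : ℤ) := by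
  rw [HahnSeries.order_pow, Jb_order]
  simp

theorem Jb_trans {q : ℕ} (hq : q.Prime) {P : (ZMod q)[X]}
    (h : P.eval₂ HahnSeries.C (Jb q) = 0) : P = 0 := by
  have : Fact q.Prime := ⟨hq⟩
  by_contra hP
  have h1 : (P.eval₂ HahnSeries.C (Jb q)).coeff (-(P.natDegree : ℤ)) = 0 := by
    rw [h]
    rfl
  rw [Polynomial.eval₂_eq_sum_range, HahnSeries.coeff_sum, Finset.sum_range_succ,
    Finset.sum_eq_zero, zero_add, HahnSeries.C_mul_eq_smul, HahnSeries.coeff_smul, smul_eq_mul] at h1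
  · have h2 : (Jb q ^ P.natDegree).coeff (-(P.natDegree : ℤ)) ≠ 0 := by
      have h3 := (HahnSeries.coeff_order_eq_zero (x := Jb q ^ P.natDegree)).not.2 (pow_ne_zero _ Jb_ne)
      rwa [Jb_pow_order] at h3
    rcases mul_eq_zero.1 h1 with h3 | h3
    · exact hP (Polynomial.leadingCoeff_eq_zero.1 h3)
    · exact h2 h3
  · intro i hi
    rw [HahnSeries.C_mul_eq_smul, HahnSeries.coeff_smul, HahnSeries.coeff_eq_zero_of_lt_order, smul_zero]
    rw [Jb_pow_order]
    have := Finset.mem_range.1 hi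
    omega

theorem theta_Jb_ne {q : ℕ} (hq : q.Prime) : theta (Jb q) ≠ 0 := by
  have : Fact q.Prime := ⟨hq⟩
  intro h
  have h1 : (theta (Jb q)).coeff (-1) = 0 := by
    rw [h]
    rfl
  have h2 : (theta (Jb q)).coeff (-1) = (((-1 : ℤ) : ℤ) : ZMod q) * (Jb q).coeff (-1) := rfl
  rw [h2, Jb_m1] at h1
  simp at h1

end Pool.Agent.SS
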