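import Pool.Agent.Work.MP_a5099b_nt.D.Dd
import Pool.Agent.Work.MP_a5099b_nt.D.Tr

/-!
# Module D.Mod (M)

The equation for `k = (θJ̄)^(q-1)`. Reduce `exists_d` modulo `q` (`lmap`, `GGAt_map`, `lmap_lexp`, `lexp_eq_pow`):
with `d̄` the image of `d` in `F_q((T))`,
(1) `P(J̄) = G(J̄, J̄^q) = d̄ (J̄ - (J̄^q)^q) = d̄ W(J̄)` (`PG` evaluated at `J̄`: `GGAt_map` for the evaluation
`(ZMod q)[X] → F_q((T))`),
(2) `(θJ̄)^q = J̄^(q-1) θJ̄ + θd̄`.
`θ` of (1) (`theta_aeval`, `theta_mul`; `W' = 1` in characteristic `q`):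
`P'(J̄) θJ̄ = θd̄ W(J̄) + d̄ θJ̄`. Multiply by `W(J̄)` and use (1), (2), `θJ̄ ≠ 0`:
`(θJ̄)^(q-1) W(J̄)^2 = J̄^(q-1) W(J̄)^2 + P'(J̄) W(J̄) - P(J̄) = V(J̄)`.
-/

set_option autoImplicit false

namespace Pool.Agent.SS

open UpperHalfPlane Polynomial
open Pool.Agent.Work.CM (IsLat g2 g3 tauLat)
open scoped Pointwise MatrixGroups

theorem theta_V {q : ℕ} (hq : q.Prime) :
    theta (Jb q) ^ (q - 1) * (WG q).eval₂ HahnSeries.C (Jb q) ^ 2 =
      (VG q).eval₂ HahnSeries.C (Jb q) := by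
  have : Fact q.Prime := ⟨hq⟩
  obtain ⟨d, h1, h2, h3⟩ := exists_d hq
  have hJ : lmap (Int.castRingHom (ZMod q)) Jq = Jb q := rfl
  have hl : lmap (Int.castRingHom (ZMod q)) (lexp q Jq) = Jb q ^ q := by
    rw [lmap_lexp, hJ, lexp_eq_pow hq]
  set db : LaurentSeries (ZMod q) := lmap (Int.castRingHom (ZMod q)) d with hdb
  set J : LaurentSeries (ZMod q) := Jb q with hJd
  have g2 : GGAt q J (J ^ q) = db * (J - (J ^ q) ^ q) := by
    have := congrArg (lmap (Int.castRingHom (ZMod q))) h2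
    rw [GGAt_map, hJ, hl, map_mul, map_sub, map_pow, hJ, hl] at this
    exact this
  have g3 : theta J ^ q = J ^ (q - 1) * theta J + theta db := by
    have := congrArg (lmap (Int.castRingHom (ZMod q))) h3
    rw [lmap_lexp, ← theta_lmap, hJ, lexp_eq_pow hq, map_add, map_mul, map_pow, hJ, ← theta_lmap,
      ← theta_lmap, hJ] at this
    exact this
  have eP : (PG q).eval₂ HahnSeries.C J = GGAt q J (J ^ q) := by
    have := GGAt_map (n := q) (Polynomial.eval₂RingHom (HahnSeries.C (Γ := ℤ) (R := ZMod q)) J)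
      (X : (ZMod q)[X]) (X ^ q)
    simpa [PG] using this
  have eW : (WG q).eval₂ HahnSeries.C J = J - (J ^ q) ^ q := by
    rw [WG, Polynomial.eval₂_sub, Polynomial.eval₂_X_pow, Polynomial.eval₂_X, ← pow_mul, ← pow_two]
  have g1 : (PG q).eval₂ HahnSeries.C J = db * (WG q).eval₂ HahnSeries.C J := by
    rw [eP, eW, g2]
  have dW : derivative (WG q) = 1 := by
    rw [WG, derivative_sub, derivative_X, derivative_X_pow]
    have : ((q ^ 2 : ℕ) : ZMod q) = 0 := by
      rw [Nat.cast_pow, ZMod.natCast_self]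
      exact zero_pow two_ne_zero
    rw [this, C_0, zero_mul, sub_zero]
  have tW : theta ((WG q).eval₂ HahnSeries.C J) = theta J := by
    rw [theta_aeval, dW, Polynomial.eval₂_one, one_mul]
  have g4 : (derivative (PG q)).eval₂ HahnSeries.C J * theta J =
      theta db * (WG q).eval₂ HahnSeries.C J + db * theta J := by
    rw [← theta_aeval, g1, theta_mul, tW]
  have hV : (VG q).eval₂ HahnSeries.C J = J ^ (q - 1) * (WG q).eval₂ HahnSeries.C J ^ 2 +
      (derivative (PG q)).eval₂ HahnSeries.C J * (WG q).eval₂ HahnSeries.C J -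
      (PG q).eval₂ HahnSeries.C J := by
    rw [VG, Polynomial.eval₂_sub, Polynomial.eval₂_add, Polynomial.eval₂_mul, Polynomial.eval₂_mul,
      Polynomial.eval₂_pow, Polynomial.eval₂_pow, Polynomial.eval₂_X]
  have hq1 : theta J ^ q = theta J ^ (q - 1) * theta J := by
    rw [← pow_succ, Nat.sub_add_cancel hq.one_le]
  rw [hV]
  apply mul_right_cancel₀ (theta_Jb_ne hq)
  rw [← hJd]
  generalize (WG q).eval₂ HahnSeries.C J = W at *
  generalize (PG q).eval₂ HahnSeries.C J = P at *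
  generalize (derivative (PG q)).eval₂ HahnSeries.C J = P' at *
  rw [hq1] at g3
  have e : theta J ^ (q - 1) * W ^ 2 * theta J = (J ^ (q - 1) * theta J + theta db) * W ^ 2 := by
    rw [← g3]; ring
  rw [e, g1]
  linear_combination (-W) * g4

end Pool.Agent.SS
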