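import Pool.Agent.Work.MP_a5099b_nt.D.Kk
import Pool.Agent.Work.MP_a5099b_nt.D.Mod
import Pool.Agent.Work.MP_a5099b_nt.D.Tr

/-!
# Module D.Fin (M)

Conclusion. From `theta_V` and `theta_S`: `V(J̄) S(J̄)^2 = J̄^a (J̄ - 1728)^b W(J̄)^2`, so by `Jb_trans`
`V S^2 = X^a (X - 1728)^b W^2` in `F_q[X]`. (*)

Let `y ∈ k` be supersingular, `y ≠ 0, 1728`: there are `a₁, b₁ ∈ k` with `4a₁^3 + 27b₁^2 ≠ 0`,
`1728 * 4 a₁^3 = y (4a₁^3 + 27b₁^2)` and `Hasse q a₁ b₁ = 0`. Put `e = -48 a₁`, `f = 864 b₁`,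
`D = -16 (4a₁^3 + 27 b₁^2) = (e^3 - f^2)/1728 ≠ 0`, `j = y`: `e^3 = y D`, `f^2 = (y - 1728) D`; `e ≠ 0` (as `y ≠ 0`), `f ≠ 0`
(as `y ≠ 1728`). By the normal form `0 = D^m e^δ f^ε S(y)`, so `S(y) = 0`. Map (*) to `k[X]` and take the
multiplicities at `y`: `mult V + 2 mult S = 2 mult W` (all polynomials are not zero: `W ≠ 0`). `mult S ≥ 1`, and
`mult W ≤ 1` as `W' = 1` (characteristic `q`). So `mult W = 1 = mult S`, `mult V = 0`: `W(y) = 0`, i.e. `y^(q^2) = y`, and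
`0 ≠ V(y) = y^(q-1) W(y)^2 + P'(y) W(y) - P(y) = -P(y)`, i.e. `P(y) = G(y, y^q) ≠ 0` (`GGAt_map`).
-/

set_option autoImplicit false

namespace Pool.Agent.SS

open UpperHalfPlane Polynomial
open Pool.Agent.Work.CM (IsLat g2 g3 tauLat)
open scoped Pointwise MatrixGroups

private theorem fin_six {q : ℕ} (hq : q.Prime) (h5 : 5 ≤ q) {n k : ℕ} (h : n ∣ 6 ^ k) :
    (n : ZMod q) ≠ 0 := by
  rw [Ne, ZMod.natCast_eq_zero_iff]
  intro hd
  have h1 : q ∣ 6 := hq.dvd_of_dvd_pow (hd.trans h)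
  have h2 : q ≤ 6 := Nat.le_of_dvd (by norm_num) h1
  have h3 : q = 5 ∨ q = 6 := by omega
  rcases h3 with rfl | rfl
  · norm_num at h1
  · norm_num at hq

theorem regular {q : ℕ} (hq : q.Prime) (h5 : 5 ≤ q) {k : Type} [Field k] [CharP k q] (y : k)
    (hy : SSj q y) (h0 : y ≠ 0) (h1 : y ≠ 1728) : y ^ (q ^ 2) = y ∧ GGAt q y (y ^ q) ≠ 0 := by
  have : Fact q.Prime := ⟨hq⟩
  let _ : Algebra (ZMod q) k := ZMod.algebra k q
  obtain ⟨S, m, δ, ε, a, b, -, hH, hS⟩ := theta_S hq h5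
  have hV := theta_V hq
  have star : VG q * S ^ 2 = X ^ a * (X - 1728) ^ b * WG q ^ 2 := by
    rw [← sub_eq_zero]
    apply Jb_trans hq
    rw [eval₂_sub, eval₂_mul, eval₂_mul, eval₂_pow, eval₂_pow, ← hV, ← hS]
    ring
  set φ := algebraMap (ZMod q) k with hφ
  have star' : (VG q).map φ * S.map φ ^ 2 = X ^ a * (X - 1728) ^ b * (WG q).map φ ^ 2 := by
    have := congrArg (Polynomial.map φ) star
    simpa only [Polynomial.map_mul, Polynomial.map_pow, Polynomial.map_sub, map_X,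
      Polynomial.map_ofNat] using this
  obtain ⟨a₁, b₁, hne, hj, hha⟩ := hy
  have h48 : (48 : ZMod q) ≠ 0 := by exact_mod_cast fin_six hq h5 (n := 48) (k := 4) (by norm_num)
  have h864 : (864 : ZMod q) ≠ 0 := by exact_mod_cast fin_six hq h5 (n := 864) (k := 5) (by norm_num)
  have h16 : (16 : ZMod q) ≠ 0 := by exact_mod_cast fin_six hq h5 (n := 16) (k := 4) (by norm_num)
  have k48 : (48 : k) ≠ 0 := by
    have := (map_ne_zero φ).2 h48
    rwa [map_ofNat] at this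
  have k864 : (864 : k) ≠ 0 := by
    have := (map_ne_zero φ).2 h864
    rwa [map_ofNat] at this
  have k16 : (16 : k) ≠ 0 := by
    have := (map_ne_zero φ).2 h16
    rwa [map_ofNat] at this
  have e1 : (-48 * a₁) ^ 3 = y * (-16 * (4 * a₁ ^ 3 + 27 * b₁ ^ 2)) := by
    linear_combination (-16) * hj
  have e2 : (864 * b₁) ^ 2 = (y - 1728) * (-16 * (4 * a₁ ^ 3 + 27 * b₁ ^ 2)) := by
    linear_combination (-16) * hj
  have key := hH k (-48 * a₁) (864 * b₁) (-16 * (4 * a₁ ^ 3 + 27 * b₁ ^ 2)) y e1 e2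
  have c1 : algebraMap (ZMod q) k (-(48 : ZMod q)⁻¹) * (-48 * a₁) = a₁ := by
    rw [map_neg, map_inv₀, map_ofNat]
    field_simp
  have c2 : algebraMap (ZMod q) k ((864 : ZMod q)⁻¹) * (864 * b₁) = b₁ := by
    rw [map_inv₀, map_ofNat]
    field_simp
  rw [c1, c2, hha] at key
  have hD : (-16 * (4 * a₁ ^ 3 + 27 * b₁ ^ 2) : k) ≠ 0 := mul_ne_zero (neg_ne_zero.2 k16) hne
  have he : (-48 * a₁ : k) ≠ 0 := by
    intro h
    rw [h, zero_pow three_ne_zero] at e1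
    exact mul_ne_zero h0 hD e1.symm
  have hf : (864 * b₁ : k) ≠ 0 := by
    intro h
    rw [h, zero_pow two_ne_zero] at e2
    exact mul_ne_zero (sub_ne_zero.2 h1) hD e2.symm
  have hSy : aeval y S = 0 := by
    have h2 : (-16 * (4 * a₁ ^ 3 + 27 * b₁ ^ 2)) ^ m * (-48 * a₁) ^ δ * (864 * b₁) ^ ε ≠ 0 :=
      mul_ne_zero (mul_ne_zero (pow_ne_zero _ hD) (pow_ne_zero _ he)) (pow_ne_zero _ hf)
    exact (mul_eq_zero.1 key.symm).resolve_left h2
  have hSy' : (S.map φ).eval y = 0 := by rwa [eval_map_algebraMap]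
  have hc : (X ^ a * (X - 1728) ^ b : k[X]).eval y ≠ 0 := by
    simp only [eval_mul, eval_pow, eval_X, eval_sub, eval_ofNat]
    exact mul_ne_zero (pow_ne_zero _ h0) (pow_ne_zero _ (sub_ne_zero.2 h1))
  generalize hP₀ : (X ^ a * (X - 1728) ^ b : k[X]) = P₀ at star' hc
  have hW : ((WG q).map φ).eval y = 0 := by
    have h2 := congrArg (Polynomial.eval y) star'
    simp only [eval_mul, eval_pow, hSy', zero_pow two_ne_zero, mul_zero] at h2
    exact pow_eq_zero_iff two_ne_zero |>.1 ((mul_eq_zero.1 h2.symm).resolve_left hc)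
  have hWy : ((WG q).map φ).eval y = y - y ^ (q ^ 2) := by
    simp [WG]
  have hWd : derivative ((WG q).map φ) = 1 := by
    have h2 : ((q : k)) = 0 := CharP.cast_eq_zero k q
    simp only [WG, Polynomial.map_sub, Polynomial.map_pow, map_X, derivative_sub, derivative_X, derivative_X_pow,
      Nat.cast_pow, h2]
    simp
  obtain ⟨S₁, hS₁⟩ := dvd_iff_isRoot.2 (show IsRoot (S.map φ) y from hSy')
  obtain ⟨W₁, hW₁⟩ := dvd_iff_isRoot.2 (show IsRoot ((WG q).map φ) y from hW)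
  have hW1 : W₁.eval y = 1 := by
    have h2 := hWd
    rw [hW₁] at h2
    have h3 := congrArg (Polynomial.eval y) h2
    simpa using h3
  have h2 : (VG q).map φ * S₁ ^ 2 = P₀ * W₁ ^ 2 := by
    have h3 : (X - C y) ^ 2 * ((VG q).map φ * S₁ ^ 2) =
        (X - C y) ^ 2 * (P₀ * W₁ ^ 2) := by
      rw [hS₁, hW₁] at star'
      linear_combination star'
    exact mul_left_cancel₀ (pow_ne_zero 2 (X_sub_C_ne_zero y)) h3
  have h3 : ((VG q).map φ).eval y ≠ 0 := by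
    intro h4
    have h5 := congrArg (Polynomial.eval y) h2
    rw [eval_mul, h4, zero_mul, eval_mul, eval_pow, hW1, one_pow, mul_one] at h5
    exact hc h5.symm
  refine ⟨?_, ?_⟩
  · rw [hWy] at hW
    exact (sub_eq_zero.1 hW).symm
  · intro h4
    apply h3
    have h5 : ((PG q).map φ).eval y = 0 := by
      rw [eval_map_algebraMap]
      have h6 := GGAt_map (n := q) ((aeval y : (ZMod q)[X] →ₐ[ZMod q] k) : (ZMod q)[X] →+* k) X (X ^ q)
      have h7 : aeval y (PG q) = GGAt q y (y ^ q) := by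
        rw [PG]
        simpa using h6
      rw [h7, h4]
    simp only [VG, Polynomial.map_sub, Polynomial.map_add, Polynomial.map_mul, Polynomial.map_pow,
      eval_sub, eval_add, eval_mul, eval_pow, hW, h5]
    simp

end Pool.Agent.SS
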