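import Pool.Agent.Work.MP_a5099b_nt.D.Th
import Pool.Agent.Work.MP_a5099b_nt.B.PhiJ
import Pool.Agent.Work.MP_a5099b_nt.B.Kro2
import Pool.Agent.Work.MP_a5099b_nt.A.NmChar

/-!
# Module D.Dd (S-M)

The series `d = (j(T^q) - j(T)^q)/q`.

`lexp q Jq ≡ Jq^q mod q` (`lexp_eq_pow` after `lmap (Int.castRingHom (ZMod q))`, `lmap_lexp`; a series over `ℤ` whose
image over `ZMod q` is zero is `q` times a series), so `d` exists. By `PhiAt_Jq` the series `Y = lexp q Jq` is a root
of `PhiAt q Jq`, and `kron_at` gives `0 = (J^q - Y)(J - Y^q) + q G(J, Y) = q (-d (J - Y^q) + G(J, Y))`; `ℤ((T))` has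
no `q`-torsion. Apply `theta` to `lexp q Jq = Jq^q + q d` (`theta_lexp`, `theta_pow`) and divide by `q`.
-/

set_option autoImplicit false

namespace Pool.Agent.SS

open UpperHalfPlane Polynomial
open Pool.Agent.Work.CM (IsLat g2 g3 tauLat)
open scoped Pointwise MatrixGroups

theorem exists_d {q : ℕ} (hq : q.Prime) : ∃ d : LaurentSeries ℤ,
    lexp q Jq = Jq ^ q + (q : LaurentSeries ℤ) * d ∧
    GGAt q Jq (lexp q Jq) = d * (Jq - lexp q Jq ^ q) ∧
    lexp q (theta Jq) = Jq ^ (q - 1) * theta Jq + theta d := by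
  have hcast : (q : LaurentSeries ℤ) = HahnSeries.C (q : ℤ) := by
    rw [map_natCast]
  have hq0 : (q : LaurentSeries ℤ) ≠ 0 := by
    rw [hcast]
    intro h
    have h1 : (q : ℤ) = 0 := HahnSeries.C_injective (by rw [h, map_zero])
    exact hq.ne_zero (by exact_mod_cast h1)
  obtain ⟨d, hd⟩ : ∃ d : LaurentSeries ℤ, lexp q Jq - Jq ^ q = (q : LaurentSeries ℤ) * d := by
    set a : LaurentSeries ℤ := lexp q Jq - Jq ^ q with ha
    have h1 : lmap (Int.castRingHom (ZMod q)) a = 0 := by
      rw [ha, map_sub, map_pow, lmap_lexp, lexp_eq_pow hq, sub_self]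
    have h2 : ∀ m, (q : ℤ) ∣ a.coeff m := by
      intro m
      have h3 : (lmap (Int.castRingHom (ZMod q)) a).coeff m = 0 := by
        rw [h1]
        rfl
      have h4 : ((a.coeff m : ℤ) : ZMod q) = 0 := h3
      exact (ZMod.intCast_zmod_eq_zero_iff_dvd _ _).1 h4
    let d : LaurentSeries ℤ :=
      { coeff := fun m => a.coeff m / q
        isPWO_support' := a.isPWO_support.mono fun m hm h0 => hm (by
          show a.coeff m / (q : ℤ) = 0
          rw [h0, Int.zero_ediv]) }
    refine ⟨d, ?_⟩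
    ext m
    rw [hcast, HahnSeries.C_mul_eq_smul, HahnSeries.coeff_smul, smul_eq_mul]
    show a.coeff m = q * (a.coeff m / q)
    exact (Int.mul_ediv_cancel' (h2 m)).symm
  have h1 : lexp q Jq = Jq ^ q + (q : LaurentSeries ℤ) * d := by
    rw [← hd]
    ring
  refine ⟨d, h1, ?_, ?_⟩
  · have h2 := kron_at hq Jq (lexp q Jq)
    rw [PhiAt_Jq hq, eval_mul, eval_sub, eval_X, eval_C, sub_self, zero_mul] at h2
    apply mul_left_cancel₀ hq0
    have h3 : Jq ^ q - lexp q Jq = -((q : LaurentSeries ℤ) * d) := by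
      rw [← hd]
      ring
    rw [h3] at h2
    linear_combination -h2
  · apply mul_left_cancel₀ hq0
    have h2 := congrArg theta h1
    have h3 : theta (q : LaurentSeries ℤ) = 0 := by
      rw [hcast, theta_C]
    rw [theta_lexp hq.ne_zero, theta_add, theta_pow, theta_mul, h3, zero_mul, zero_add] at h2
    rw [h2]
    ring

end Pool.Agent.SS
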