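import Pool.Agent.Work.MP_a5099b_nt.D.Nf
import Pool.Agent.Work.MP_a5099b_nt.D.HasseQ
import Pool.Agent.Work.MP_a5099b_nt.D.Tr
import Pool.Agent.Work.MP_a5099b_nt.A.Theta
import Pool.Agent.Work.MP_a5099b_nt.A.DqF

/-!
# Module D.Kk (M)

`k = (θJ̄)^(q-1)` in terms of `J̄`. In the field `F_q((T))` put `e = E₄`, `f = E₆`, `D = Δ` (images of `E4b, E6b, Db`),
`j = J̄`: `e^3 = j D` (`Jq_mul`), `f^2 = e^3 - 1728 D = (j - 1728) D` (`Dq_spec`), `θj D = -e^2 f` (`theta_Jq`).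
`hasse_nf` and `hasse_q` give `1 = D^m e^δ f^ε S(j)`, `q - 1 = 12m + 4δ + 6ε`. Then (`q - 1` even)
`(θj)^(q-1) = (e^2 f)^(q-1) / D^(q-1)` and, multiplying by `1 = (D^m e^δ f^ε S(j))^(-2)`:
`(θj)^(q-1) S(j)^2 = e^(2(q-1) - 2δ) f^((q-1) - 2ε) / D^((q-1) + 2m)`. Exponents: `2(q-1) - 2δ = 3(8m + 2δ + 4ε)`,
`(q-1) - 2ε = 2(6m + 2δ + 2ε)`, so with `e^3 = jD`, `f^2 = (j-1728)D` this is
`j^(8m+2δ+4ε) (j-1728)^(6m+2δ+2ε) D^0`.
(`D ≠ 0, e ≠ 0, f ≠ 0`.)
Second part: the polynomial identity, by `theta_V`-type comparison is in `D.Fin`.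
-/

set_option autoImplicit false

namespace Pool.Agent.SS

open UpperHalfPlane Polynomial
open Pool.Agent.Work.CM (IsLat g2 g3 tauLat)
open scoped Pointwise MatrixGroups

private theorem hasse_map (q : ℕ) {A B : Type*} [CommRing A] [CommRing B] (φ : A →+* B) (a b : A) :
    Hasse q (φ a) (φ b) = φ (Hasse q a b) := by
  unfold Hasse
  rw [← Polynomial.coeff_map]
  simp only [Polynomial.map_pow, Polynomial.map_add, Polynomial.map_mul, Polynomial.map_X,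
    Polynomial.map_C]

private theorem lmap_ofPS {A B : Type*} [CommRing A] [CommRing B] (φ : A →+* B)
    (x : PowerSeries A) :
    lmap φ (HahnSeries.ofPowerSeries ℤ A x) =
      HahnSeries.ofPowerSeries ℤ B (PowerSeries.map φ x) := by
  ext m
  have h1 : (lmap φ (HahnSeries.ofPowerSeries ℤ A x)).coeff m =
      φ ((HahnSeries.ofPowerSeries ℤ A x).coeff m) := rfl
  rw [h1, PowerSeries.coeff_coe, PowerSeries.coeff_coe]
  split_ifs
  · simp
  · rw [PowerSeries.coeff_map]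

private theorem theta_lmap {A B : Type*} [CommRing A] [CommRing B] (φ : A →+* B)
    (x : LaurentSeries A) : theta (lmap φ x) = lmap φ (theta x) := by
  ext m
  have h1 : (theta (lmap φ x)).coeff m = (m : B) * φ (x.coeff m) := rfl
  have h2 : (lmap φ (theta x)).coeff m = φ ((m : A) * x.coeff m) := rfl
  rw [h1, h2, map_mul, map_intCast]

theorem theta_S {q : ℕ} (hq : q.Prime) (h5 : 5 ≤ q) :
    ∃ (S : (ZMod q)[X]) (m δ ε a b : ℕ), q - 1 = 12 * m + 4 * δ + 6 * ε ∧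
      (∀ (R : Type) [CommRing R] [Algebra (ZMod q) R] (e f D j : R), e ^ 3 = j * D →
        f ^ 2 = (j - 1728) * D →
        Hasse q (algebraMap (ZMod q) R (-(48 : ZMod q)⁻¹) * e)
          (algebraMap (ZMod q) R ((864 : ZMod q)⁻¹) * f) =
        D ^ m * e ^ δ * f ^ ε * aeval j S) ∧
      theta (Jb q) ^ (q - 1) * S.eval₂ HahnSeries.C (Jb q) ^ 2 =
        ((X : (ZMod q)[X]) ^ a * (X - 1728) ^ b).eval₂ HahnSeries.C (Jb q) := by
  have : Fact q.Prime := ⟨hq⟩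
  obtain ⟨S, m, δ, ε, hq1, hS⟩ := hasse_nf hq h5
  refine ⟨S, m, δ, ε, 8 * m + 2 * δ + 4 * ε, 6 * m + 2 * δ + 2 * ε, hq1, hS, ?_⟩
  set φ : ℤ →+* ZMod q := Int.castRingHom (ZMod q) with hφ
  obtain ⟨e, he⟩ : ∃ e, e = HahnSeries.ofPowerSeries ℤ (ZMod q) (E4b q) := ⟨_, rfl⟩
  obtain ⟨f, hf⟩ : ∃ f, f = HahnSeries.ofPowerSeries ℤ (ZMod q) (E6b q) := ⟨_, rfl⟩
  obtain ⟨D, hD⟩ : ∃ D, D = HahnSeries.ofPowerSeries ℤ (ZMod q) (Db q) := ⟨_, rfl⟩
  obtain ⟨j, hj⟩ : ∃ j, j = Jb q := ⟨_, rfl⟩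
  have heL : e = lmap φ (HahnSeries.ofPowerSeries ℤ ℤ E4q) := by rw [he, lmap_ofPS]; rfl
  have hfL : f = lmap φ (HahnSeries.ofPowerSeries ℤ ℤ E6q) := by rw [hf, lmap_ofPS]; rfl
  have hDL : D = lmap φ (HahnSeries.ofPowerSeries ℤ ℤ Dq) := by rw [hD, lmap_ofPS]; rfl
  have h1 : e ^ 3 = j * D := by
    rw [heL, hDL, hj, ← map_pow, ← map_pow, ← Jq_mul, map_mul]
    rfl
  have h2 : f ^ 2 = (j - 1728) * D := by
    have h := congrArg (fun x => lmap φ (HahnSeries.ofPowerSeries ℤ ℤ x)) Dq_spec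
    simp only [map_mul, map_sub, map_pow, map_ofNat] at h
    rw [← heL, ← hfL, ← hDL] at h
    linear_combination h + h1
  have h3 : theta j * D = -(e ^ 2 * f) := by
    have h := congrArg (lmap φ) theta_Jq
    rw [map_mul, map_neg, map_mul, map_pow, map_mul, map_pow, ← theta_lmap, ← heL, ← hfL,
      ← hDL] at h
    rw [hj]
    exact h
  have hD0 : D ≠ 0 := by
    intro h0
    have hc := congrArg (fun x => HahnSeries.coeff x (1 : ℤ)) h0
    simp only [hD] at hc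
    rw [PowerSeries.coeff_coe] at hc
    have : PowerSeries.coeff 1 (Db q) = 1 := by
      unfold Db
      rw [PowerSeries.coeff_map, Dq_one, map_one]
    simp [this] at hc
  have he0 : e ≠ 0 := by
    intro h0
    have hc := congrArg (fun x => HahnSeries.coeff x (0 : ℤ)) h0
    simp only [he] at hc
    rw [PowerSeries.coeff_coe] at hc
    have : PowerSeries.coeff 0 (E4b q) = 1 := by
      unfold E4b E4q
      rw [PowerSeries.coeff_map, PowerSeries.coeff_mk, if_pos rfl, map_one]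
    simp at hc
    rw [← PowerSeries.coeff_zero_eq_constantCoeff_apply, this] at hc
    exact one_ne_zero hc
  have hf0 : f ≠ 0 := by
    intro h0
    have hc := congrArg (fun x => HahnSeries.coeff x (0 : ℤ)) h0
    simp only [hf] at hc
    rw [PowerSeries.coeff_coe] at hc
    have : PowerSeries.coeff 0 (E6b q) = 1 := by
      unfold E6b E6q
      rw [PowerSeries.coeff_map, PowerSeries.coeff_mk, if_pos rfl, map_one]
    simp at hc
    rw [← PowerSeries.coeff_zero_eq_constantCoeff_apply, this] at hc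
    exact one_ne_zero hc
  have h4 : D ^ m * e ^ δ * f ^ ε * S.eval₂ HahnSeries.C j = 1 := by
    have hh := @hS (LaurentSeries (ZMod q)) _
      (HahnSeries.C : ZMod q →+* LaurentSeries (ZMod q)).toAlgebra e f D j h1 h2
    have hh2 := congrArg (HahnSeries.ofPowerSeries ℤ (ZMod q)) (hasse_q hq h5)
    rw [← hasse_map, map_mul, map_mul, HahnSeries.ofPowerSeries_C, HahnSeries.ofPowerSeries_C,
      ← he, ← hf, map_one] at hh2
    exact hh.symm.trans hh2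
  have hev : Even (q - 1) := by
    rw [hq1]
    exact ⟨6 * m + 2 * δ + 3 * ε, by ring⟩
  have h5' : (((X : (ZMod q)[X]) ^ (8 * m + 2 * δ + 4 * ε) *
      (X - 1728) ^ (6 * m + 2 * δ + 2 * ε)).eval₂ HahnSeries.C (Jb q) : LaurentSeries (ZMod q)) =
      j ^ (8 * m + 2 * δ + 4 * ε) * (j - 1728) ^ (6 * m + 2 * δ + 2 * ε) := by
    rw [eval₂_mul, eval₂_pow, eval₂_pow, eval₂_sub, eval₂_X, eval₂_ofNat, hj]
  rw [h5', ← hj]
  have hne : D ^ (q - 1) * (D ^ m * e ^ δ * f ^ ε) ^ 2 ≠ 0 :=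
    mul_ne_zero (pow_ne_zero _ hD0) (pow_ne_zero _ (mul_ne_zero (mul_ne_zero
      (pow_ne_zero _ hD0) (pow_ne_zero _ he0)) (pow_ne_zero _ hf0)))
  refine mul_right_cancel₀ hne ?_
  have hl : theta j ^ (q - 1) * S.eval₂ HahnSeries.C j ^ 2 *
      (D ^ (q - 1) * (D ^ m * e ^ δ * f ^ ε) ^ 2) =
      (theta j * D) ^ (q - 1) * (D ^ m * e ^ δ * f ^ ε * S.eval₂ HahnSeries.C j) ^ 2 := by
    rw [mul_pow (theta j) D]
    ring
  have hr : j ^ (8 * m + 2 * δ + 4 * ε) * (j - 1728) ^ (6 * m + 2 * δ + 2 * ε) *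
      (D ^ (q - 1) * (D ^ m * e ^ δ * f ^ ε) ^ 2) =
      (j * D) ^ (8 * m + 2 * δ + 4 * ε) * ((j - 1728) * D) ^ (6 * m + 2 * δ + 2 * ε) *
        (e ^ (2 * δ) * f ^ (2 * ε)) := by
    rw [hq1, mul_pow j D, mul_pow (j - 1728) D]
    ring
  rw [hl, hr, h4, h3, hev.neg_pow, ← h1, ← h2, hq1]
  ring

end Pool.Agent.SS
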