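import Pool.Agent.Work.MP_a5099b_nt.D.Defs

/-!
# Module D.Nf (M)

Normal form of the Hasse polynomial. `Hasse q a b` is the coefficient of `x^(q-1)` in
`(x^3 + a x + b)^((q-1)/2)`, i.e. the sum over `(u, v, w)` with `u + v + w = (q-1)/2`, `3u + v = q - 1` of
multinomial coefficients times `a^v b^w`; then `2u = v + ... `: `4v + 6w = 6((q-1)/2 - u) - 2v = 3(q-1) - 2(3u + v) = q - 1`.
So it is `∑ c_(v,w) a^v b^w` over `4v + 6w = q - 1` with `c_(v,w) ∈ F_q` (prove this for the universal polynomial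
`(X^3 + a X + b)^N` by expanding twice with the binomial theorem, or by a homogeneity argument:
`Hasse q (s^4 a) (s^6 b) = s^(q-1) Hasse q a b`). Write `q - 1 = 12 m + 4 δ + 6 ε` with `δ ≤ 2`, `ε ≤ 1` (`q - 1` is even and
`≥ 4`; a residue `2 mod 12` is `14 = 8 + 6` with `m` smaller: then `q - 1 ≥ 14`, as `q = 3` is excluded). All solutions of
`4v + 6w = q - 1` are `v = δ + 3 v'`, `w = ε + 2 w'`, `v' + w' = m`. Put `e = e4, f = e6`: for `e^3 = j D`,
`f^2 = (j - 1728) D`: `e^v f^w = e^δ f^ε (j D)^v' ((j-1728) D)^w' = D^m e^δ f^ε j^v' (j-1728)^w'`. So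
`S = ∑ c_(v,w) (-1/48)^v (1/864)^w X^v' (X - 1728)^w'`.
-/

set_option autoImplicit false

namespace Pool.Agent.SS

open UpperHalfPlane Polynomial
open Pool.Agent.Work.CM (IsLat g2 g3 tauLat)
open scoped Pointwise MatrixGroups

private theorem coeff_expand {k : Type*} [CommRing k] (a b : k) (N : ℕ) :
    ((X ^ 3 + C a * X + C b : k[X]) ^ N).coeff (2 * N) =
      ∑ x ∈ ((Finset.range (N + 1)).sigma fun i => Finset.range (i + 1)).filter
        (fun x => 2 * x.2 + x.1 = 2 * N),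
        ((N.choose x.1 * x.1.choose x.2 : ℕ) : k) * a ^ (x.1 - x.2) * b ^ (N - x.1) := by
  rw [Finset.sum_filter, Finset.sum_sigma, add_pow, finsetSum_coeff]
  refine Finset.sum_congr rfl fun i _ => ?_
  rw [add_pow, Finset.sum_mul, Finset.sum_mul, finsetSum_coeff]
  refine Finset.sum_congr rfl fun u hu => ?_
  have hu' : u ≤ i := Nat.lt_succ_iff.1 (Finset.mem_range.1 hu)
  have e : (X ^ 3 : k[X]) ^ u * (C a * X) ^ (i - u) * ((i.choose u : ℕ) : k[X]) *
      C b ^ (N - i) * ((N.choose i : ℕ) : k[X]) =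
      C (((N.choose i * i.choose u : ℕ) : k) * a ^ (i - u) * b ^ (N - i)) * X ^ (2 * u + i) := by
    have h1 : 2 * u + i = 3 * u + (i - u) := by omega
    rw [h1, pow_add, pow_mul, mul_pow]
    simp only [map_mul, map_pow, map_natCast, Nat.cast_mul]
    ring
  rw [e, coeff_C_mul_X_pow]
  by_cases h : 2 * N = 2 * u + i
  · rw [if_pos h, if_pos h.symm]
  · rw [if_neg h, if_neg (fun h' => h h'.symm)]

private theorem exists_mde (N : ℕ) (hN : 2 ≤ N) :
    ∃ m δ ε : ℕ, N = 6 * m + 2 * δ + 3 * ε ∧ δ ≤ 2 ∧ ε ≤ 1 := by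
  have h6 : N % 6 < 6 := Nat.mod_lt _ (by norm_num)
  have hd := Nat.div_add_mod N 6
  interval_cases h : N % 6
  · exact ⟨N / 6, 0, 0, by omega, by omega, by omega⟩
  · exact ⟨N / 6 - 1, 2, 1, by omega, by omega, by omega⟩
  · exact ⟨N / 6, 1, 0, by omega, by omega, by omega⟩
  · exact ⟨N / 6, 0, 1, by omega, by omega, by omega⟩
  · exact ⟨N / 6, 2, 0, by omega, by omega, by omega⟩
  · exact ⟨N / 6, 1, 1, by omega, by omega, by omega⟩

/-- `r` as a constant of the algebra -/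
theorem hasse_nf {q : ℕ} (hq : q.Prime) (h5 : 5 ≤ q) :
    ∃ (S : (ZMod q)[X]) (m δ ε : ℕ), q - 1 = 12 * m + 4 * δ + 6 * ε ∧
      ∀ (R : Type) [CommRing R] [Algebra (ZMod q) R] (e f D j : R), e ^ 3 = j * D →
        f ^ 2 = (j - 1728) * D →
        Hasse q (algebraMap (ZMod q) R (-(48 : ZMod q)⁻¹) * e)
          (algebraMap (ZMod q) R ((864 : ZMod q)⁻¹) * f) =
        D ^ m * e ^ δ * f ^ ε * aeval j S := by
  obtain ⟨N, hN⟩ : ∃ N, q = 2 * N + 1 := hq.odd_of_ne_two (by omega)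
  have hN2 : 2 ≤ N := by omega
  obtain ⟨m, δ, ε, hNm, hδ, hε⟩ := exists_mde N hN2
  have hq1 : q - 1 = 2 * N := by omega
  have hq2 : (q - 1) / 2 = N := by omega
  refine ⟨∑ p ∈ Finset.HasAntidiagonal.antidiagonal m,
    C (((N.choose (N - (ε + 2 * p.2)) *
      (N - (ε + 2 * p.2)).choose (N - (ε + 2 * p.2) - (δ + 3 * p.1)) : ℕ) : ZMod q) *
      (-(48 : ZMod q)⁻¹) ^ (δ + 3 * p.1) * ((864 : ZMod q)⁻¹) ^ (ε + 2 * p.2)) *
      (X ^ p.1 * (X - 1728) ^ p.2), m, δ, ε, by omega, ?_⟩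
  intro R _ _ e f D j he hf
  unfold Hasse
  rw [hq2, hq1, coeff_expand, map_sum, Finset.mul_sum]
  refine Finset.sum_bij' (fun x _ => ((x.1 - x.2 - δ) / 3, (N - x.1 - ε) / 2))
    (fun p _ => ⟨N - (ε + 2 * p.2), N - (ε + 2 * p.2) - (δ + 3 * p.1)⟩) ?_ ?_ ?_ ?_ ?_
  · rintro ⟨k, u⟩ hx
    simp only [Finset.mem_filter, Finset.mem_sigma, Finset.mem_range] at hx
    simp only [Finset.HasAntidiagonal.mem_antidiagonal]
    omega
  · rintro ⟨v, w⟩ hp
    simp only [Finset.HasAntidiagonal.mem_antidiagonal] at hp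
    simp only [Finset.mem_filter, Finset.mem_sigma, Finset.mem_range]
    omega
  · rintro ⟨k, u⟩ hx
    simp only [Finset.mem_filter, Finset.mem_sigma, Finset.mem_range] at hx
    have h1 : N - (ε + 2 * ((N - k - ε) / 2)) = k := by omega
    have h2 : k - (δ + 3 * ((k - u - δ) / 3)) = u := by omega
    simp only [h1, h2]
  · rintro ⟨v, w⟩ hp
    simp only [Finset.HasAntidiagonal.mem_antidiagonal] at hp
    refine Prod.ext ?_ ?_
    · show (N - (ε + 2 * w) - (N - (ε + 2 * w) - (δ + 3 * v)) - δ) / 3 = v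
      omega
    · show (N - (N - (ε + 2 * w)) - ε) / 2 = w
      omega
  · rintro ⟨k, u⟩ hx
    simp only [Finset.mem_filter, Finset.mem_sigma, Finset.mem_range] at hx
    obtain ⟨v, hv⟩ : ∃ v, (k - u - δ) / 3 = v := ⟨_, rfl⟩
    obtain ⟨w, hw⟩ : ∃ w, (N - k - ε) / 2 = w := ⟨_, rfl⟩
    have h1 : N - (ε + 2 * w) = k := by omega
    have h2 : k - (δ + 3 * v) = u := by omega
    have h3 : k - u = δ + 3 * v := by omega
    have h4 : N - k = ε + 2 * w := by omega
    have h5 : v + w = m := by omega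
    simp only [hv, hw, h1, h2]
    rw [h3, h4, ← h5]
    simp only [map_mul, map_pow, map_sub, aeval_C, aeval_X, map_natCast, map_ofNat, mul_pow]
    have e1 : e ^ (δ + 3 * v) = e ^ δ * (j * D) ^ v := by rw [pow_add, pow_mul, he]
    have e2 : f ^ (ε + 2 * w) = f ^ ε * ((j - 1728) * D) ^ w := by rw [pow_add, pow_mul, hf]
    rw [e1, e2, mul_pow, mul_pow]
    ring

end Pool.Agent.SS
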