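import Pool.Agent.Work.MP_a5099b_nt.D.Defs
import Pool.Agent.Work.MP_a5099b_nt.A.Sec

/-!
# Module D.Th (S-M)

Rules for `theta` (coefficients `m a_m`). `theta (a b)`: `m (ab)_m = ∑ (i + j) a_i b_j` over the finite set of pairs
with `i + j = m` in the supports (the supports of `theta a` may be smaller: extend the sum by zeros).
`theta (a^n)` by induction. `theta (lexp n a)`: coefficient at `n m` is `n m a_m`.
-/

set_option autoImplicit false

namespace Pool.Agent.SS

open UpperHalfPlane Polynomial
open Pool.Agent.Work.CM (IsLat g2 g3 tauLat)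
open scoped Pointwise MatrixGroups

section
variable {A B : Type*} [CommRing A] [CommRing B]

private theorem th_coeff (a : LaurentSeries A) (m : ℤ) : (theta a).coeff m = (m : A) * a.coeff m :=
  rfl

private theorem th_supp (a : LaurentSeries A) : (theta a).support ⊆ a.support := fun m hm => by
  rw [HahnSeries.mem_support] at hm ⊢
  exact right_ne_zero_of_mul hm

theorem theta_add (a b : LaurentSeries A) : theta (a + b) = theta a + theta b := by
  ext m
  rw [HahnSeries.coeff_add, th_coeff, th_coeff, th_coeff, HahnSeries.coeff_add, mul_add]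

theorem theta_mul (a b : LaurentSeries A) : theta (a * b) = theta a * b + a * theta b := by
  ext m
  rw [HahnSeries.coeff_add, th_coeff, HahnSeries.coeff_mul,
    HahnSeries.coeff_mul_left' a.isPWO_support (th_supp a),
    HahnSeries.coeff_mul_right' b.isPWO_support (th_supp b), Finset.mul_sum,
    ← Finset.sum_add_distrib]
  refine Finset.sum_congr rfl fun ij hij => ?_
  have h := (Finset.mem_antidiagonal.1 hij).2.2
  rw [th_coeff, th_coeff, ← h]
  push_cast
  ring

theorem theta_C (c : A) : theta (HahnSeries.C c : LaurentSeries A) = 0 := by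
  ext m
  rw [th_coeff, HahnSeries.coeff_zero]
  by_cases hm : m = 0
  · rw [hm, Int.cast_zero, zero_mul]
  · have h : (HahnSeries.C c : LaurentSeries A).coeff m = 0 := by
      rw [HahnSeries.C_apply, HahnSeries.coeff_single_of_ne hm]
    rw [h, mul_zero]

private theorem th_one : theta (1 : LaurentSeries A) = 0 := by
  have h := theta_C (1 : A)
  rwa [map_one] at h

theorem theta_pow (a : LaurentSeries A) (n : ℕ) :
    theta (a ^ n) = n * a ^ (n - 1) * theta a := by
  induction n with
  | zero => rw [pow_zero, th_one, Nat.cast_zero, zero_mul, zero_mul]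
  | succ n ih =>
    rw [pow_succ, theta_mul, ih, Nat.add_sub_cancel]
    rcases Nat.eq_zero_or_pos n with rfl | hn
    · simp
    · obtain ⟨k, rfl⟩ : ∃ k, n = k + 1 := ⟨n - 1, by omega⟩
      rw [Nat.add_sub_cancel]
      push_cast
      ring

theorem theta_aeval {F : Type*} [Field F] (a : LaurentSeries F) (P : F[X]) :
    theta (P.eval₂ HahnSeries.C a) = (derivative P).eval₂ HahnSeries.C a * theta a := by
  induction P using Polynomial.induction_on' with
  | add p q hp hq => rw [eval₂_add, theta_add, hp, hq, derivative_add, eval₂_add, add_mul]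
  | monomial n c =>
    rw [eval₂_monomial, theta_mul, theta_C, zero_mul, zero_add, theta_pow, derivative_monomial,
      eval₂_monomial, map_mul, map_natCast]
    ring

theorem theta_lexp {n : ℕ} (hn : n ≠ 0) (a : LaurentSeries A) :
    theta (lexp n a) = n * lexp n (theta a) := by
  ext m
  have h1 : ((n : LaurentSeries A) * lexp n (theta a)).coeff m = (n : A) * (lexp n (theta a)).coeff m := by
    rw [← nsmul_eq_mul, ← nsmul_eq_mul, HahnSeries.coeff_nsmul]
    rfl
  rw [h1, th_coeff]
  by_cases hm : (n : ℤ) ∣ m
  · obtain ⟨k, rfl⟩ := hm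
    rw [lexp_coeff_mul hn, lexp_coeff_mul hn, th_coeff]
    push_cast
    ring
  · rw [lexp_coeff_of_not_dvd hn _ hm, lexp_coeff_of_not_dvd hn _ hm, mul_zero, mul_zero]

theorem theta_lmap (f : A →+* B) (a : LaurentSeries A) : theta (lmap f a) = lmap f (theta a) := by
  ext m
  show (m : B) * f (a.coeff m) = f ((m : A) * a.coeff m)
  rw [map_mul, map_intCast]

end

end Pool.Agent.SS
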